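import Mathlib
import Pool.Agent.H.MP_d14146_co.Core

set_option autoImplicit false

namespace Pool.Agent.Results.MP_d14146_co.SigL1
open Pool.Agent.H.MP_d14146_co

theorem result :
    ∀ (n : ℕ) (G : SimpleGraph (Fin n)), 2 ≤ n → G.Connected →
      ∃ (m : ℕ) (P : Fin n → Fin m → ℝ) (r : Fin n → ℝ), 1 ≤ m ∧ Function.Injective P ∧
        (∀ i, IsLeast {t : ℝ | ∃ j, j ≠ i ∧ t = ∑ k, |P i k - P j k|} (r i)) ∧
        ∀ i j, i ≠ j →
          (G.Adj i j → ∑ k, |P i k - P j k| < r i + r j) ∧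
          (¬ G.Adj i j → r i + r j ≤ ∑ k, |P i k - P j k|) := by
  intro n G hn hG
  obtain ⟨D⟩ := exists_data G hG
  have hd : ∀ i j : Fin n, ∑ k : Fin (n * n),
      |X D i (finProdFinEquiv.symm k) - X D j (finProdFinEquiv.symm k)| = d D i j := by
    intro i j
    exact Equiv.sum_comp finProdFinEquiv.symm (fun c => |X D i c - X D j c|)
  have hr : ∀ i : Fin n, ∃ r, IsLeast {t | ∃ j, j ≠ i ∧ t = d D i j} r := by
    intro i
    have : Nontrivial (Fin n) := Fin.nontrivial_iff_two_le.2 hn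
    obtain ⟨j, hj⟩ := exists_ne i
    obtain ⟨x, hx1, hx2⟩ := Set.exists_min_image {j | j ≠ i} (fun j => d D i j) (Set.toFinite _)
      ⟨j, hj⟩
    refine ⟨d D i x, ⟨x, hx1, rfl⟩, ?_⟩
    rintro t ⟨y, hy, rfl⟩
    exact hx2 y hy
  choose r hr using hr
  refine ⟨n * n, fun i k => X D i (finProdFinEquiv.symm k), r, by nlinarith, ?_, ?_, ?_⟩
  · intro i j h
    by_contra hne
    have h1 := d_pos D hne
    rw [← hd] at h1
    have h2 : ∀ k, X D i (finProdFinEquiv.symm k) = X D j (finProdFinEquiv.symm k) :=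
      fun k => congrFun h k
    simp only [h2, sub_self, abs_zero, Finset.sum_const_zero, lt_self_iff_false] at h1
  · intro i
    simp only [hd]
    exact hr i
  · intro i j hij
    simp only [hd]
    have key : G.Adj i j ↔ d D i j < r i + r j := by
      rcases lt_or_gt_of_ne (fun e => hij (D.inj e)) with e | e
      · exact main D r hr e
      · rw [G.adj_comm, d_symm, add_comm]
        exact main D r hr e
    exact ⟨key.1, fun h => not_lt.1 (fun h' => h (key.2 h'))⟩

end Pool.Agent.Results.MP_d14146_co.SigL1
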